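import Mathlib
import Pool.Agent.Q158.EqD.Poly
import Pool.Agent.Q158.EqD.MinPol2

/-!
# The numbers `π + e`, `π e` and all rational expressions in `e` and `π` at every finite scale

Let `D_N(y)` be the discrepancy of the numbers `y, 2 y, …, N y` modulo one; `y` is rational if and
only if `D_N(y)` does not tend to zero. We prove quantitative forms, valid
at EVERY scale `N`, of the fact that `π + e` or `π e` is irrational and of its generalisations.

1. Let `X ^ n ± x_(n-1) X ^ (n-1) ± … ± x_0` be a real polynomial with the root `e`. Then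
   `∏ D_(M_j)(x_j) ≤ K N ^ (-1 / (n + 1 + η))` for all `N` and all `M_j ≥ N`, uniformly for bounded `x_j`.
2. So `D_L(t + e) D_M(t e) ≤ K N ^ (-1 / (3 + η))` for all `L, M ≥ N` and, for every `N`, one of
   the numbers `x = π + e, π e` satisfies `D_M(x) ≤ K N ^ (-1 / (6 + η))` for ALL `M ≥ N`.
3. For every `d` there are `κ, K > 0` such that for EVERY `N ≥ 1` there is an irreducible polynomial
   `f = f_N ∈ ℤ[X, Y]` which contains both variables such that for all nonconstant rational functions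
   `P / Q` of degree at most `d` in each variable and with integer coefficients at most `N ^ κ` (and with
   `Q(e, π) ≠ 0`, `|P / Q| ≤ N ^ κ` at `(e, π)`) the number `y = P(e, π) / Q(e, π)` satisfies
   `D_M(y) ≤ K N ^ (-κ)` for ALL `M ≥ N`, unless `P / Q` is constant modulo `f_N`, i.e. `f_N` divides
   `q P - p Q` for some integers `p` and `0 < q ≤ 12 N ^ κ`, where `|y - p / q| ≤ 16 N ^ (κ - 1)`.
   So at every finite scale the pair `(e, π)` looks like a generic point of the plane or of one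
   irreducible curve.

Proof. If `D_M(y) > δ` then `y` has a rational approximation with a denominator `≤ 12 / δ` and the
error at most `16 / (δ M)`. In 1 the approximations of the coefficients give an integer polynomial with a
very small value at `e`. In 3 they give an integer polynomial `q P - p Q` with a very small
value at `(e, π)`, and so an irreducible factor with a very small value. By the transcendence measures
of `e` and `π` such a factor contains both variables, and two factors which are not proportional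
have a resultant, a polynomial in one variable, which is too small at `e`.
-/

set_option autoImplicit false

open Real Polynomial

namespace Pool.Agent.Results.MP_a49cf6_nt.AtEveryScale

noncomputable section

/-- The number of the `n`, `1 ≤ n ≤ N`, for which the fractional part of `n x` lies in `[a, b)`. -/
def count (x : ℝ) (N : ℕ) (a b : ℝ) : ℕ :=
  ((Finset.Icc 1 N).filter fun n : ℕ => a ≤ Int.fract (n * x) ∧ Int.fract (n * x) < b).card

/-- The discrepancy of `x, 2 x, …, N x` modulo one: the supremum over the intervals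
`[a, b) ⊆ [0, 1)` of the difference between the proportion of the `n ≤ N` with `n x` in `[a, b)`
modulo one and the length of the interval. -/
def discrepancy (x : ℝ) (N : ℕ) : ℝ :=
  sSup {d | ∃ a b : ℝ, 0 ≤ a ∧ a ≤ b ∧ b ≤ 1 ∧ d = |(count x N a b : ℝ) / N - (b - a)|}

theorem resultA :
    -- all the coefficients of a monic real polynomial with the root `e`
    (∀ n : ℕ, 0 < n → ∀ T η : ℝ, 0 ≤ T → 0 < η → ∃ K : ℝ, 0 < K ∧
      ∀ (σ : Fin n → ℤ) (x : Fin n → ℝ), (∀ j, σ j = 1 ∨ σ j = -1) → (∀ j, |x j| ≤ T) →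
        exp 1 ^ n + ∑ j, σ j * x j * exp 1 ^ (j : ℕ) = 0 →
        ∀ (N : ℕ) (M : Fin n → ℕ), 0 < N → (∀ j, N ≤ M j) →
          ∏ j, discrepancy (x j) (M j) ≤ K * (N : ℝ) ^ (-(1 / (n + 1 + η)))) ∧
    -- the numbers `t + e` and `t e`
    (∀ T η : ℝ, 0 ≤ T → 0 < η → ∃ K : ℝ, 0 < K ∧ ∀ t : ℝ, |t| ≤ T → ∀ N L M : ℕ, 0 < N → N ≤ L →
      N ≤ M → discrepancy (t + exp 1) L * discrepancy (t * exp 1) M ≤
        K * (N : ℝ) ^ (-(1 / (3 + η)))) ∧
    -- the numbers `π + e` and `π e`
    (∀ η : ℝ, 0 < η → ∃ K : ℝ, 0 < K ∧ ∀ N : ℕ, 0 < N →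
      (∀ M : ℕ, N ≤ M → discrepancy (π + exp 1) M ≤ K * (N : ℝ) ^ (-(1 / (6 + η)))) ∨
      (∀ M : ℕ, N ≤ M → discrepancy (π * exp 1) M ≤ K * (N : ℝ) ^ (-(1 / (6 + η))))) ∧
    -- the discrepancy tends to zero exactly for the irrational numbers
    (∀ x : ℝ, Filter.Tendsto (fun N : ℕ => discrepancy x N) Filter.atTop (nhds 0) ↔
      Irrational x) := by
  have h2 : ∀ T η : ℝ, 0 ≤ T → 0 < η → ∃ K : ℝ, 0 < K ∧ ∀ t : ℝ, |t| ≤ T → ∀ N L M : ℕ, 0 < N →
      N ≤ L → N ≤ M → discrepancy (t + exp 1) L * discrepancy (t * exp 1) M ≤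
        K * (N : ℝ) ^ (-(1 / (3 + η))) := by
    intro T η hT hη
    obtain ⟨K, hK, h⟩ := Pool.Agent.Q158.EqD.poly 2 (by norm_num) ((T + 1) * (exp 1 + 1)) η
      (by positivity) hη
    refine ⟨K, hK, ?_⟩
    intro t ht N L M hN hL hM
    have he : 0 < exp 1 := exp_pos 1
    have h3 := h ![1, -1] ![t * exp 1, t + exp 1]
      (by intro j; fin_cases j <;> simp)
      (by
        intro j
        fin_cases j
        · show |t * exp 1| ≤ _
          rw [abs_mul, abs_of_pos he]
          nlinarith [abs_nonneg t]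
        · show |t + exp 1| ≤ _
          have h4 := abs_add_le t (exp 1)
          rw [abs_of_pos he] at h4
          nlinarith [abs_nonneg t])
      (by
        rw [Fin.sum_univ_two]
        show exp 1 ^ 2 + (((1 : ℤ) : ℝ) * (t * exp 1) * exp 1 ^ 0 +
          ((-1 : ℤ) : ℝ) * (t + exp 1) * exp 1 ^ 1) = 0
        push_cast
        ring)
      N ![M, L] hN (by intro j; fin_cases j <;> simp [hL, hM])
    rw [Fin.prod_univ_two] at h3
    have h4 : discrepancy (t * exp 1) M * discrepancy (t + exp 1) L ≤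
        K * (N : ℝ) ^ (-(1 / ((2 : ℕ) + 1 + η))) := h3
    rw [mul_comm]
    have e : ((2 : ℕ) : ℝ) + 1 + η = 3 + η := by norm_num
    rw [e] at h4
    exact h4
  refine ⟨Pool.Agent.Q158.EqD.poly, h2, ?_, Pool.Agent.Q158.EqD.tendsto_iff⟩
  intro η hη
  obtain ⟨K, hK, h⟩ := h2 π (η / 2) pi_pos.le (by positivity)
  refine ⟨√K, Real.sqrt_pos.2 hK, ?_⟩
  intro N hN
  have hN0 : (0 : ℝ) < N := by exact_mod_cast hN
  by_contra hcon
  push Not at hcon
  obtain ⟨⟨L, hL, h3⟩, ⟨M, hM, h4⟩⟩ := hcon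
  have h5 := h π (by rw [abs_of_pos pi_pos]) N L M hN hL hM
  set Z := √K * (N : ℝ) ^ (-(1 / (6 + η))) with hZ
  have hZ0 : 0 ≤ Z := by positivity
  have h6 : Z * Z < discrepancy (π + exp 1) L * discrepancy (π * exp 1) M :=
    mul_lt_mul'' h3 h4 hZ0 hZ0
  have h7 : Z * Z = K * (N : ℝ) ^ (-(1 / (3 + η / 2))) := by
    have e1 : Z * Z = (√K * √K) * ((N : ℝ) ^ (-(1 / (6 + η))) * (N : ℝ) ^ (-(1 / (6 + η)))) := by
      rw [hZ]; ring
    rw [e1, Real.mul_self_sqrt hK.le, ← Real.rpow_add hN0]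
    congr 2
    field_simp
    ring
  rw [h7] at h6
  linarith

/-- The discrepancy of `y` is at most `K N ^ (-κ)` at all the scales `M ≥ N`. -/
def Uniform (κ K : ℝ) (N : ℕ) (y : ℝ) : Prop :=
  ∀ M : ℕ, N ≤ M → discrepancy y M ≤ K * (N : ℝ) ^ (-κ)

/-- The value `P(x, y)` of a polynomial `P` in `X` and `Y`, considered as a polynomial in `Y` whose
coefficients are polynomials in `X`. -/
def value (x y : ℝ) (P : ℤ[X][X]) : ℝ := P.eval₂ (eval₂RingHom (Int.castRingHom ℝ) x) y

/-- The degree of `P` in each of the variables is at most `d`, the coefficients are at most `H` in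
absolute value. -/
def Bounded (d : ℕ) (H : ℝ) (P : ℤ[X][X]) : Prop :=
  P.natDegree ≤ d ∧ (∀ i, (P.coeff i).natDegree ≤ d) ∧ ∀ i j, |((P.coeff i).coeff j : ℝ)| ≤ H

/-- `P / Q` is a nonconstant rational function in two variables with degrees at most `d` and
coefficients at most `H`, defined at `(x, y)` and with a value of modulus at most `H` there. -/
def Admissible (x y : ℝ) (d : ℕ) (H : ℝ) (P Q : ℤ[X][X]) : Prop :=
  Bounded d H P ∧ Bounded d H Q ∧ value x y Q ≠ 0 ∧ |value x y P| ≤ H * |value x y Q| ∧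
    ∀ (q : ℕ) (p : ℤ), 0 < q → C (C (q : ℤ)) * P ≠ C (C p) * Q

/-- `P / Q` is constant modulo `f`, and the constant is a rational number `p / q` with a denominator
`q ≤ 12 N ^ κ`, which is very close to the value of `P / Q` at `(x, y)`. -/
def ConstantMod (x y : ℝ) (κ : ℝ) (N : ℕ) (f P Q : ℤ[X][X]) : Prop :=
  ∃ (q : ℕ) (p : ℤ), 0 < q ∧ (q : ℝ) ≤ 12 * (N : ℝ) ^ κ ∧
    |value x y P / value x y Q - p / q| ≤ 16 * (N : ℝ) ^ κ / N ∧
    f ∣ C (C (q : ℤ)) * P - C (C p) * Q

/-- At every scale `N` there is an irreducible polynomial `f` which contains both variables such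
that the values at `(x, y)` of all admissible rational functions are well distributed at
all scales `M ≥ N`, unless the function is constant modulo `f`. -/
def RelationAtScales (x y : ℝ) (d : ℕ) (κ K : ℝ) : Prop :=
  ∀ N : ℕ, 0 < N → ∃ f : ℤ[X][X], Irreducible f ∧ 0 < f.natDegree ∧ (∃ i, 0 < (f.coeff i).natDegree) ∧
    ∀ P Q : ℤ[X][X], Admissible x y d ((N : ℝ) ^ κ) P Q →
      Uniform κ K N (value x y P / value x y Q) ∨ ConstantMod x y κ N f P Q

theorem both (x y : ℝ) (hx : Pool.Agent.Q158.EqD.MeasR x) (hy : Pool.Agent.Q158.EqD.MeasR y) (d : ℕ) :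
    ∃ κ K : ℝ, 0 < κ ∧ 0 < K ∧ RelationAtScales x y d κ K := by
  obtain ⟨κ, K, h1, h2, h3⟩ := Pool.Agent.Q158.EqD.minpol2_both x y hx hy d
  refine ⟨κ, K, h1, h2, fun N hN => ?_⟩
  obtain ⟨f, hf1, hf2, hf3, hf4⟩ := h3 N hN
  refine ⟨f, hf1, hf2, ?_, ?_⟩
  · by_contra hcon
    push Not at hcon
    have := (Pool.Agent.Q158.EqD.swap_natDegree_le f 0).2 hcon
    omega
  · intro P Q hPQ
    by_cases hU : Uniform κ K N (value x y P / value x y Q)
    · exact Or.inl hU
    · refine Or.inr (hf4 P Q hPQ ?_)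
      unfold Uniform at hU
      push Not at hU
      exact hU

theorem resultB :
    (∀ d : ℕ, ∃ κ K : ℝ, 0 < κ ∧ 0 < K ∧ RelationAtScales (exp 1) π d κ K) ∧
    -- the discrepancy tends to zero exactly for the irrational numbers
    (∀ x : ℝ, Filter.Tendsto (fun N : ℕ => discrepancy x N) Filter.atTop (nhds 0) ↔
      Irrational x) :=
  ⟨both _ _ Pool.Agent.Q158.EqD.measR_e Pool.Agent.Q158.EqD.measR_pi,
    Pool.Agent.Q158.EqD.tendsto_iff⟩

theorem result :
    -- all the coefficients of a monic real polynomial with the root `e`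
    (∀ n : ℕ, 0 < n → ∀ T η : ℝ, 0 ≤ T → 0 < η → ∃ K : ℝ, 0 < K ∧
      ∀ (σ : Fin n → ℤ) (x : Fin n → ℝ), (∀ j, σ j = 1 ∨ σ j = -1) → (∀ j, |x j| ≤ T) →
        exp 1 ^ n + ∑ j, σ j * x j * exp 1 ^ (j : ℕ) = 0 →
        ∀ (N : ℕ) (M : Fin n → ℕ), 0 < N → (∀ j, N ≤ M j) →
          ∏ j, discrepancy (x j) (M j) ≤ K * (N : ℝ) ^ (-(1 / (n + 1 + η)))) ∧
    -- the numbers `t + e` and `t e`
    (∀ T η : ℝ, 0 ≤ T → 0 < η → ∃ K : ℝ, 0 < K ∧ ∀ t : ℝ, |t| ≤ T → ∀ N L M : ℕ, 0 < N → N ≤ L →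
      N ≤ M → discrepancy (t + exp 1) L * discrepancy (t * exp 1) M ≤
        K * (N : ℝ) ^ (-(1 / (3 + η)))) ∧
    -- the numbers `π + e` and `π e`
    (∀ η : ℝ, 0 < η → ∃ K : ℝ, 0 < K ∧ ∀ N : ℕ, 0 < N →
      (∀ M : ℕ, N ≤ M → discrepancy (π + exp 1) M ≤ K * (N : ℝ) ^ (-(1 / (6 + η)))) ∨
      (∀ M : ℕ, N ≤ M → discrepancy (π * exp 1) M ≤ K * (N : ℝ) ^ (-(1 / (6 + η))))) ∧
    -- at every scale the badly distributed rational functions are constant on one curve
    (∀ d : ℕ, ∃ κ K : ℝ, 0 < κ ∧ 0 < K ∧ RelationAtScales (exp 1) π d κ K) ∧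
    -- the discrepancy tends to zero exactly for the irrational numbers
    (∀ x : ℝ, Filter.Tendsto (fun N : ℕ => discrepancy x N) Filter.atTop (nhds 0) ↔
      Irrational x) :=
  ⟨resultA.1,
    resultA.2.1,
    resultA.2.2.1,
    resultB.1,
    resultB.2⟩

end

end Pool.Agent.Results.MP_a49cf6_nt.AtEveryScale
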