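import Mathlib
import Pool.Agent.Q199.Dg.Sim
import Pool.Agent.Q199.Dg.Pair

/-!
# Blocks of digits of `π + e` and `π e`, at every scale

One of the numbers `π + e`, `π e` is irrational, since `e` is a root of `X² - (π + e) X + π e`, and so
has for every `n` more than `n` different blocks of `n` digits somewhere in its infinite expansion
(Morse and Hedlund). Here are forms of this which hold at EVERY scale, with the blocks among the
first digits, and for all real `t` in place of `π`.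

1. Let `A_0, …, A_k ∈ ℤ[X]` be linearly independent of degree at most `D`, `T, η > 0`. There is `C`
   such that for all real numbers `x_1, …, x_k` with `|x_j| ≤ T` and
   `A_0(e) + A_1(e) x_1 + … + A_k(e) x_k = 0`, all bases `b`, all places `s`, all `n` and all
   `L ≥ (k (D + 1) + η) n + (D + η) s + C` one of the `x_j` has more than `n` different blocks of `n`
   digits among its digits of the places `s, …, s + L - 1`.
2. In particular for the coefficients of all monic polynomials of degree `k` with real coefficients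
   in `[-T, T]` and the root `e` (`D = k`), and for `t + e`, `t e` with `|t| ≤ T` and
   `L ≥ (6 + η) n + (2 + η) s + C`.
3. Let `ε ≥ 0`, `λ > 2 (D + 1) (1 + ε)`, and let `A, B, C ∈ ℤ[X]` be linearly independent of degree at
   most `D`. There is `n₀` such that for all `n ≥ n₀`, all bases `β` and all points `(x, y)` with
   `|x|, |y| ≤ T` of the line `A(e) + B(e) x + C(e) y = 0` the following holds: all the forms
   `(a x + b y + g) / d` with integers `|a|, |b|, |d| ≤ β^(ε n)`, `(a, b) ≠ 0`, `d ≠ 0`, any `g`, which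
   have at most `n` different blocks of `n` digits among their first `⌈λ n⌉` digits, have
   proportional `(a, b)`.
4. For `ε > 0` the numbers `1, x, y` are linearly dependent over `ℚ` if and only if for all large
   `n` there is such a form.
5. So `1, π + e, π e` are linearly independent over `ℚ` (and then both numbers are irrational)
   if and only if for infinitely many `n` ALL forms `(a (π + e) + b π e + g) / d` with `(a, b) ≠ 0`,
   `d ≠ 0`, `|a|, |b|, |d| ≤ 10^(n/7)`, have more than `n` different blocks of `n` decimals among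
   their first `7 n` decimals.
-/

set_option autoImplicit false

open Real Filter Polynomial

namespace Pool.Agent.Results.MP_a49cf6_nt.BlocksAtEveryScale

noncomputable section

/-- the digit of the place `n = 0, 1, …` after the point in the base `b` expansion of `x` -/
def digit (b : ℕ) (x : ℝ) (n : ℕ) : ℤ := ⌊x * (b : ℝ) ^ (n + 1)⌋ % (b : ℤ)

/-- the number of different blocks of `n` digits among the digits of `x` of the places
`s, …, s + L - 1` -/
def blocks (b : ℕ) (x : ℝ) (s n L : ℕ) : ℕ :=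
  ((Finset.range (L + 1 - n)).image fun i => fun k : Fin n => digit b x (s + i + k)).card

/-- one of the numbers `x j` has more than `n` different blocks of `n` digits among its digits of
the places `s, …, s + L - 1` whenever `L ≥ α n + κ s + C`, in every base -/
def Rich {k : ℕ} (x : Fin k → ℝ) (α κ C : ℝ) : Prop :=
  ∀ b : ℕ, 2 ≤ b → ∀ s n L : ℕ, α * n + κ * s + C ≤ L → ∃ j, n < blocks b (x j) s n L

theorem several (D k : ℕ) (hD : 1 ≤ D) (hk : 1 ≤ k) (A : Fin (k + 1) → ℤ[X])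
    (hA : ∀ i, (A i).natDegree ≤ D) (hli : LinearIndependent ℤ A) (T η : ℝ) (hT : 0 ≤ T)
    (hη : 0 < η) :
    ∃ C : ℕ, ∀ x : Fin k → ℝ, (∀ j, |x j| ≤ T) →
      aeval (exp 1) (A 0) + ∑ j, aeval (exp 1) (A j.succ) * x j = 0 →
      Rich x (k * (D + 1) + η) (D + η) C := by
  have hkR : (1 : ℝ) ≤ k := by exact_mod_cast hk
  have hDR : (1 : ℝ) ≤ D := by exact_mod_cast hD
  have hη' : 0 < η / k := by positivity
  have hη'' : η / k ≤ η := div_le_self hη.le hkR
  obtain ⟨c, hc, h⟩ := Pool.Agent.Q199.Dg.sm_of_rel D k A hA hli (η / k) hη'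
  obtain ⟨C, hC⟩ := Pool.Agent.Q199.Dg.sim_blocks (k := k) hk (D + η / k) c T (by linarith) hc hT
  refine ⟨C, fun x hx hrel b hb s n L hL => hC x hx (h x hrel) b hb s n L ?_⟩
  refine le_trans ?_ hL
  have hn : (0 : ℝ) ≤ n := by positivity
  have hs : (0 : ℝ) ≤ s := by positivity
  have e1 : k * (D + η / k + 1) * (n : ℝ) = (k * (D + 1) + η) * n := by
    field_simp
    ring
  rw [e1]
  have : (D + η / k) * (s : ℝ) ≤ (D + η) * s := mul_le_mul_of_nonneg_right (by linarith) hs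
  linarith

/-- the polynomials `X^k, 1, X, …, X^(k-1)` -/
def mons (k : ℕ) : Fin (k + 1) → ℤ[X] := Fin.cons (X ^ k) fun j : Fin k => X ^ (j : ℕ)

theorem mons_li (k : ℕ) : LinearIndependent ℤ (mons k) := by
  rw [Fintype.linearIndependent_iff]
  intro g hg
  unfold mons at hg
  rw [Fin.sum_univ_succ] at hg
  simp only [Fin.cons_zero, Fin.cons_succ] at hg
  have key : ∀ m : ℕ, g 0 * (if m = k then 1 else 0) +
      ∑ j : Fin k, g j.succ * (if m = j then 1 else 0) = 0 := by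
    intro m
    have h1 := congrArg (fun P : ℤ[X] => P.coeff m) hg
    simp only [coeff_add, coeff_smul, finsetSum_coeff, coeff_X_pow, smul_eq_mul, coeff_zero] at h1
    exact h1
  intro i
  refine Fin.cases ?_ (fun j => ?_) i
  · have h1 := key k
    rw [if_pos rfl, mul_one, Finset.sum_eq_zero, add_zero] at h1
    · exact h1
    · intro j _
      rw [if_neg (by have := j.2; omega), mul_zero]
  · have h1 := key j
    rw [if_neg (by have := j.2; omega), mul_zero, zero_add, Finset.sum_eq_single j] at h1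
    · simpa using h1
    · intro i _ hij
      rw [if_neg (by
        intro h
        exact hij (Fin.ext h.symm)), mul_zero]
    · intro h
      exact absurd (Finset.mem_univ j) h

theorem mons_deg (k : ℕ) : ∀ i, (mons k i).natDegree ≤ k := by
  intro i
  unfold mons
  refine Fin.cases ?_ (fun j => ?_) i
  · rw [Fin.cons_zero]; exact natDegree_X_pow_le k
  · rw [Fin.cons_succ]
    exact (natDegree_X_pow_le _).trans j.2.le

theorem monic (k : ℕ) (hk : 1 ≤ k) (T η : ℝ) (hT : 0 ≤ T) (hη : 0 < η) :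
    ∃ C : ℕ, ∀ x : Fin k → ℝ, (∀ j, |x j| ≤ T) →
      exp 1 ^ k + ∑ j, x j * exp 1 ^ (j : ℕ) = 0 → Rich x (k * (k + 1) + η) (k + η) C := by
  obtain ⟨C, hC⟩ := several k k hk hk (mons k) (mons_deg k) (mons_li k) T η hT hη
  refine ⟨C, fun x hx h => hC x hx ?_⟩
  unfold mons
  simp only [Fin.cons_zero, Fin.cons_succ, map_pow, aeval_X]
  rw [← h]
  congr 1
  exact Finset.sum_congr rfl fun j _ => mul_comm _ _

theorem sumProd (T η : ℝ) (hT : 0 ≤ T) (hη : 0 < η) :
    ∃ C : ℕ, ∀ t : ℝ, |t| ≤ T → ∀ b : ℕ, 2 ≤ b → ∀ s n L : ℕ,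
      (6 + η) * n + (2 + η) * s + C ≤ L →
      n < blocks b (t + exp 1) s n L ∨ n < blocks b (t * exp 1) s n L := by
  have he := Real.exp_one_lt_d9
  have he0 := Real.exp_pos 1
  obtain ⟨C, hC⟩ := several 2 2 (by norm_num) (by norm_num) ![X ^ 2, -X, 1] (by
    intro i
    fin_cases i <;> simp) (by
    rw [Fintype.linearIndependent_iff]
    intro g hg
    rw [Fin.sum_univ_three] at hg
    have h : ∀ j : ℕ, g 0 * (if j = 2 then 1 else 0) + g 1 * (-(if 1 = j then 1 else 0)) +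
        g 2 * (if j = 0 then 1 else 0) = 0 := by
      intro j
      have h1 := congrArg (fun P : ℤ[X] => P.coeff j) hg
      simp only [Matrix.cons_val_zero, Matrix.cons_val_one, Matrix.cons_val, coeff_add, coeff_smul,
        coeff_neg, coeff_X_pow, coeff_X, coeff_one, smul_eq_mul, coeff_zero] at h1
      exact h1
    intro i
    fin_cases i
    · simpa using h 2
    · simpa using h 1
    · simpa using h 0) (3 * T + 3) η (by positivity) hη
  refine ⟨C, fun t ht b hb s n L hL => ?_⟩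
  have h := hC ![t + exp 1, t * exp 1] (by
    intro j
    fin_cases j
    · simp only [Fin.zero_eta, Matrix.cons_val_zero]
      refine (abs_add_le _ _).trans ?_
      rw [abs_of_pos he0]
      linarith
    · simp only [Fin.mk_one, Matrix.cons_val_one, Matrix.cons_val_zero]
      rw [abs_mul, abs_of_pos he0]
      have := abs_nonneg t
      nlinarith) (by
    rw [Fin.sum_univ_two]
    have e1 : (![(X : ℤ[X]) ^ 2, -X, 1] (Fin.succ 0) : ℤ[X]) = -X := rfl
    have e2 : (![(X : ℤ[X]) ^ 2, -X, 1] (Fin.succ 1) : ℤ[X]) = 1 := rfl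
    rw [e1, e2]
    simp only [Matrix.cons_val_zero, Matrix.cons_val_one, map_pow, aeval_X, map_neg, map_one]
    ring) b hb s n L (by
    push_cast
    linarith)
  obtain ⟨j, hj⟩ := h
  fin_cases j
  · exact Or.inl hj
  · exact Or.inr hj

/-- the form `(a x + b y + g) / d` is simple at the scale `n` in the base `β` -/
def Simple (β : ℕ) (x y ε lam : ℝ) (n : ℕ) (a b g d : ℤ) : Prop :=
  (a ≠ 0 ∨ b ≠ 0) ∧ d ≠ 0 ∧ |(a : ℝ)| ≤ (β : ℝ) ^ (ε * n) ∧ |(b : ℝ)| ≤ (β : ℝ) ^ (ε * n) ∧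
    |(d : ℝ)| ≤ (β : ℝ) ^ (ε * n) ∧ blocks β ((a * x + b * y + g) / d) 0 n ⌈lam * n⌉₊ ≤ n

/-- `1, x, y` are linearly dependent over `ℚ` -/
def Dependent (x y : ℝ) : Prop :=
  ∃ g a b : ℤ, ¬ (g = 0 ∧ a = 0 ∧ b = 0) ∧ g + a * x + b * y = 0

/-- The point `(x, y)` lies on the line `A(e) + B(e) x + C(e) y = 0`. -/
def OnLine (A B C : ℤ[X]) (x y : ℝ) : Prop :=
  aeval (exp 1) A + aeval (exp 1) B * x + aeval (exp 1) C * y = 0

theorem exp_choice (D : ℕ) (ε lam : ℝ) (hε : 0 ≤ ε) (hl : 2 * (D + 1) * (1 + ε) < lam) :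
    ∃ η : ℝ, 0 < η ∧ (1 + ε) * (2 * (D + η) + 2) < lam := by
  have h1 : 0 < 1 + ε := by linarith
  refine ⟨(lam - 2 * (D + 1) * (1 + ε)) / (4 * (1 + ε)), by
    have : 0 < lam - 2 * (D + 1) * (1 + ε) := by linarith
    positivity, ?_⟩
  have e : (1 + ε) * (2 * (D + (lam - 2 * (D + 1) * (1 + ε)) / (4 * (1 + ε))) + 2) =
      2 * (D + 1) * (1 + ε) + (lam - 2 * (D + 1) * (1 + ε)) / 2 := by
    field_simp
    ring
  rw [e]
  linarith

theorem directions (D : ℕ) (A B C : ℤ[X]) (hA : A.natDegree ≤ D) (hB : B.natDegree ≤ D)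
    (hC : C.natDegree ≤ D) (hli : LinearIndependent ℤ ![A, B, C]) (T ε lam : ℝ) (hT : 0 ≤ T)
    (hε : 0 ≤ ε) (hl : 2 * (D + 1) * (1 + ε) < lam) :
    ∃ n₀ : ℕ, ∀ n, n₀ ≤ n → ∀ β : ℕ, 2 ≤ β → ∀ x y : ℝ, |x| ≤ T → |y| ≤ T → OnLine A B C x y →
      ∀ a b g d a' b' g' d' : ℤ, Simple β x y ε lam n a b g d → Simple β x y ε lam n a' b' g' d' →
        a * b' = a' * b := by
  obtain ⟨η, hη, h1⟩ := exp_choice D ε lam hε hl
  obtain ⟨c, hc, hm⟩ := Pool.Agent.Q95.NR.mm_of_rel D A B C hA hB hC hli η hη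
  obtain ⟨n₀, h⟩ := Pool.Agent.Q199.Dg.pair_unique (D + η) c T ε lam (by positivity) hc hT hε h1
  exact ⟨n₀, fun n hn β hβ x y hx hy hxy => h n hn β hβ x y hx hy (hm x y hxy)⟩

theorem criterion (D : ℕ) (A B C : ℤ[X]) (hA : A.natDegree ≤ D) (hB : B.natDegree ≤ D)
    (hC : C.natDegree ≤ D) (hli : LinearIndependent ℤ ![A, B, C]) (ε lam : ℝ)
    (hε : 0 < ε) (hl : 2 * (D + 1) * (1 + ε) < lam) (β : ℕ) (hβ : 2 ≤ β) (x y : ℝ)
    (hxy : OnLine A B C x y) :
    Dependent x y ↔ ∀ᶠ n : ℕ in atTop, ∃ a b g d : ℤ, Simple β x y ε lam n a b g d := by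
  obtain ⟨η, hη, h1⟩ := exp_choice D ε lam hε.le hl
  obtain ⟨c, hc, hm⟩ := Pool.Agent.Q95.NR.mm_of_rel D A B C hA hB hC hli η hη
  have key := Pool.Agent.Q199.Dg.pair_criterion (D + η) c ε lam (by positivity) hc hε h1 β hβ x y
    (hm x y hxy)
  refine Iff.trans ?_ key
  constructor
  · rintro ⟨g, a, b, h1, h2⟩
    refine ⟨a, b, g, ?_, by linarith⟩
    by_contra hcon
    push Not at hcon
    obtain ⟨h3, h4⟩ := hcon
    apply h1
    refine ⟨?_, h3, h4⟩
    rw [h3, h4] at h2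
    simpa using h2
  · rintro ⟨a, b, g, h1, h2⟩
    refine ⟨g, a, b, ?_, by linarith⟩
    rintro ⟨-, h4, h5⟩
    rcases h1 with h | h
    · exact h h4
    · exact h h5

theorem li_pair : LinearIndependent ℤ ![(X : ℤ[X]) ^ 2, -X, 1] := by
  rw [Fintype.linearIndependent_iff]
  intro g hg
  rw [Fin.sum_univ_three] at hg
  have h : ∀ j : ℕ, g 0 * (if j = 2 then 1 else 0) + g 1 * (-(if 1 = j then 1 else 0)) +
      g 2 * (if j = 0 then 1 else 0) = 0 := by
    intro j
    have h1 := congrArg (fun P : ℤ[X] => P.coeff j) hg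
    simp only [Matrix.cons_val_zero, Matrix.cons_val_one, Matrix.cons_val, coeff_add, coeff_smul,
      coeff_neg, coeff_X_pow, coeff_X, coeff_one, smul_eq_mul, coeff_zero] at h1
    exact h1
  intro i
  fin_cases i
  · simpa using h 2
  · simpa using h 1
  · simpa using h 0

theorem onLine_pair (t : ℝ) : OnLine (X ^ 2) (-X) 1 (t + exp 1) (t * exp 1) := by
  unfold OnLine
  simp only [map_pow, aeval_X, map_neg, map_one]
  ring

theorem result :
    -- 1. several numbers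
    (∀ D k : ℕ, 1 ≤ D → 1 ≤ k → ∀ A : Fin (k + 1) → ℤ[X], (∀ i, (A i).natDegree ≤ D) →
      LinearIndependent ℤ A → ∀ T η : ℝ, 0 ≤ T → 0 < η →
      ∃ C : ℕ, ∀ x : Fin k → ℝ, (∀ j, |x j| ≤ T) →
        aeval (exp 1) (A 0) + ∑ j, aeval (exp 1) (A j.succ) * x j = 0 →
        Rich x (k * (D + 1) + η) (D + η) C) ∧
    -- 2. the coefficients of a monic polynomial with the root `e`; `t + e` and `t e`
    (∀ k : ℕ, 1 ≤ k → ∀ T η : ℝ, 0 ≤ T → 0 < η →
      ∃ C : ℕ, ∀ x : Fin k → ℝ, (∀ j, |x j| ≤ T) →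
        exp 1 ^ k + ∑ j, x j * exp 1 ^ (j : ℕ) = 0 → Rich x (k * (k + 1) + η) (k + η) C) ∧
    (∀ T η : ℝ, 0 ≤ T → 0 < η → ∃ C : ℕ, ∀ t : ℝ, |t| ≤ T → ∀ b : ℕ, 2 ≤ b → ∀ s n L : ℕ,
      (6 + η) * n + (2 + η) * s + C ≤ L →
      n < blocks b (t + exp 1) s n L ∨ n < blocks b (t * exp 1) s n L) ∧
    -- 3. directions
    (∀ (D : ℕ) (A B C : ℤ[X]), A.natDegree ≤ D → B.natDegree ≤ D → C.natDegree ≤ D →
      LinearIndependent ℤ ![A, B, C] → ∀ T ε lam : ℝ, 0 ≤ T → 0 ≤ ε →
      2 * (D + 1) * (1 + ε) < lam →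
      ∃ n₀ : ℕ, ∀ n, n₀ ≤ n → ∀ β : ℕ, 2 ≤ β → ∀ x y : ℝ, |x| ≤ T → |y| ≤ T → OnLine A B C x y →
        ∀ a b g d a' b' g' d' : ℤ, Simple β x y ε lam n a b g d →
          Simple β x y ε lam n a' b' g' d' → a * b' = a' * b) ∧
    -- 4. the criterion
    (∀ (D : ℕ) (A B C : ℤ[X]), A.natDegree ≤ D → B.natDegree ≤ D → C.natDegree ≤ D →
      LinearIndependent ℤ ![A, B, C] → ∀ ε lam : ℝ, 0 < ε → 2 * (D + 1) * (1 + ε) < lam →
      ∀ β : ℕ, 2 ≤ β → ∀ x y : ℝ, OnLine A B C x y →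
      (Dependent x y ↔ ∀ᶠ n : ℕ in atTop, ∃ a b g d : ℤ, Simple β x y ε lam n a b g d)) ∧
    -- 3. and 4. apply to `t + e, t e` with `D = 2`
    (∀ t : ℝ, OnLine (X ^ 2) (-X) 1 (t + exp 1) (t * exp 1)) ∧
    -- 5. the numbers of the problem
    (¬ Dependent (π + exp 1) (π * exp 1) ↔ ∃ᶠ n : ℕ in atTop, ∀ a b g d : ℤ,
      (a ≠ 0 ∨ b ≠ 0) → d ≠ 0 → |(a : ℝ)| ≤ (10 : ℝ) ^ ((n : ℝ) / 7) →
      |(b : ℝ)| ≤ (10 : ℝ) ^ ((n : ℝ) / 7) → |(d : ℝ)| ≤ (10 : ℝ) ^ ((n : ℝ) / 7) →
      n < blocks 10 ((a * (π + exp 1) + b * (π * exp 1) + g) / d) 0 n (7 * n)) := by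
  refine ⟨several, monic, sumProd, directions, criterion, onLine_pair, ?_⟩
  rw [criterion 2 (X ^ 2) (-X) 1 (by simp) (by simp) (by simp) li_pair (1 / 7) 7 (by norm_num)
    (by norm_num) 10 (by norm_num) _ _ (onLine_pair π), Filter.not_eventually]
  apply Filter.frequently_congr
  filter_upwards with n
  have e1 : ⌈(7 : ℝ) * n⌉₊ = 7 * n := by
    have : (7 : ℝ) * n = ((7 * n : ℕ) : ℝ) := by push_cast; rfl
    rw [this, Nat.ceil_natCast]
  have e2 : (((10 : ℕ) : ℝ) ^ (1 / 7 * (n : ℝ))) = (10 : ℝ) ^ ((n : ℝ) / 7) := by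
    push_cast
    congr 1
    ring
  unfold Simple
  rw [e1, e2]
  push Not
  constructor
  · intro h a b g d h1 h2 h3 h4 h5
    exact h a b g d h1 h2 h3 h4 h5
  · intro h a b g d h1 h2 h3 h4 h5
    exact h a b g d h1 h2 h3 h4 h5

end

end Pool.Agent.Results.MP_a49cf6_nt.BlocksAtEveryScale
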