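import Pool.Agent.Q95.NR3

/-!
# Near relations of pairs of real numbers tied by a relation over `ℤ[e]`; `π + e` and `π e`

`LL x y v = v₀ + v₁ x + v₂ y` for `v ∈ ℤ³`, and `ht v` is the largest `|vᵢ|`.
-/

set_option autoImplicit false

namespace Pool.Agent.Results.MP_a49cf6_nt.NearRelationsOfPairs

open Real Polynomial Pool.Agent.Q252.EN Pool.Agent.Q95.NR

/-- The point `(x, y)` lies on the line `A(e) + B(e) x + C(e) y = 0`. -/
def OnLine (A B C : ℤ[X]) (x y : ℝ) : Prop :=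
  aeval (exp 1) A + aeval (exp 1) B * x + aeval (exp 1) C * y = 0

/-- The four statements for the real points of the line given by `A`, `B`, `C`, with the
parameter `D`: all constants are independent of the point `(x, y)` of the line. -/
def Four (D : ℕ) (A B C : ℤ[X]) : Prop :=
  -- product inequality
  (∀ η : ℝ, 0 < η → ∃ c : ℝ, 0 < c ∧ ∀ x y : ℝ, OnLine A B C x y →
    ∀ u v : Fin 3 → ℤ, LinearIndependent ℤ ![u, v] →
      c * (ht u * ht v : ℝ) ^ (-(D + 1 + η)) ≤ |LL x y u| / ht u + |LL x y v| / ht v) ∧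
  -- counting
  (∀ om ρ : ℝ, 1 < ρ → ρ < (om - D) / (D + 1) → ∃ C' : ℝ, ∀ x y : ℝ, OnLine A B C x y →
    ∀ (X : ℝ) (T : Set (Fin 3 → ℤ)), 3 ≤ X →
      (∀ u ∈ T, ∀ v ∈ T, u ≠ v → LinearIndependent ℤ ![u, v]) →
      (∀ v ∈ T, (ht v : ℝ) ≤ X ∧ |LL x y v| ≤ (ht v : ℝ) ^ (-om)) →
      T.Finite ∧ (T.ncard : ℝ) ≤ log (log X) / log ρ + C') ∧
  -- windows
  (∀ γ : ℝ, 1 < γ → D * γ < (γ - 1) ^ 2 → ∃ K : ℝ, 1 ≤ K ∧ ∀ x y : ℝ, OnLine A B C x y →
    ∀ Y Z : ℝ, K ≤ Y → Y ≤ Z →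
      (∀ X ∈ Set.Icc Y Z, ∃ v : Fin 3 → ℤ, v ≠ 0 ∧ (ht v : ℝ) ≤ X ∧ |LL x y v| ≤ X ^ (-γ)) →
      ∃ v : Fin 3 → ℤ, v ≠ 0 ∧ (ht v : ℝ) ≤ Y ^ K ∧ |LL x y v| ≤ Z ^ (-γ)) ∧
  -- criterion
  (∀ γ : ℝ, 1 < γ → D * γ < (γ - 1) ^ 2 → ∀ x y : ℝ, OnLine A B C x y →
    (LinearIndependent ℚ ![(1 : ℝ), x, y] ↔
      ∀ X0 : ℝ, ∃ X : ℝ, X0 ≤ X ∧ ∀ v : Fin 3 → ℤ, v ≠ 0 → (ht v : ℝ) ≤ X →
        X ^ (-γ) < |LL x y v|))

lemma params {D γ : ℝ} (hγ : 1 < γ) (h : D * γ < (γ - 1) ^ 2) :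
    ∃ η : ℝ, 0 < η ∧ D + η + 1 < γ ∧ D + η < (γ - 1) * (γ - 1 - (D + η)) := by
  have hγ0 : 0 < γ := by linarith
  have h1 : D < (γ - 1) ^ 2 / γ := by rwa [lt_div_iff₀ hγ0]
  refine ⟨((γ - 1) ^ 2 / γ - D) / 2, by linarith, ?_, ?_⟩
  · have h2 : (γ - 1) ^ 2 / γ < γ - 1 := by
      rw [div_lt_iff₀ hγ0]
      nlinarith
    linarith
  · have h2 : (γ - 1) ^ 2 / γ * γ = (γ - 1) ^ 2 := div_mul_cancel₀ _ hγ0.ne'
    nlinarith

theorem four (D : ℕ) (A B C : ℤ[X]) (hA : A.natDegree ≤ D) (hB : B.natDegree ≤ D)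
    (hC : C.natDegree ≤ D) (hli : LinearIndependent ℤ ![A, B, C]) : Four D A B C := by
  have hD : (0 : ℝ) ≤ D := Nat.cast_nonneg D
  refine ⟨fun η hη => ?_, fun om ρ hρ hρo => ?_, fun γ hγ hγD => ?_, fun γ hγ hγD x y hxy => ?_⟩
  · obtain ⟨c, hc, hm⟩ := mm_of_rel D A B C hA hB hC hli η hη
    refine ⟨c / 2 * 2 ^ (-(D + η)), by positivity, fun x y hxy u v huv => ?_⟩
    have h := product (hm x y hxy) u v huv
    rwa [show ((D : ℝ) + η + 1) = D + 1 + η by ring] at h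
  · -- choose the exponent
    obtain ⟨η, hη, h⟩ : ∃ η : ℝ, 0 < η ∧ ρ < (om - (D + η)) / (D + η + 1) := by
      have hD1 : (0 : ℝ) < D + 1 := by linarith
      have h1 : ρ * (D + 1) < om - D := by rwa [lt_div_iff₀ hD1] at hρo
      refine ⟨(om - D - ρ * (D + 1)) / (2 * (ρ + 1)), by
        have : 0 < om - D - ρ * (D + 1) := by linarith
        positivity, ?_⟩
      obtain ⟨η, hη⟩ : ∃ η : ℝ, η = (om - D - ρ * (D + 1)) / (2 * (ρ + 1)) := ⟨_, rfl⟩
      rw [← hη]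
      have h2 : 2 * (ρ + 1) * η = om - D - ρ * (D + 1) := by
        rw [hη]
        field_simp
      have h3 : 0 < η := by
        rw [hη]
        have : 0 < om - D - ρ * (D + 1) := by linarith
        positivity
      rw [lt_div_iff₀ (by linarith)]
      nlinarith
    obtain ⟨c, hc, hm⟩ := mm_of_rel D A B C hA hB hC hli η hη
    obtain ⟨C', hC'⟩ := count (w := D + η) (c := c) (by linarith) hc hρ h
    exact ⟨C', fun x y hxy => hC' x y (hm x y hxy)⟩
  · obtain ⟨η, hη, h1, h2⟩ := params hγ hγD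
    obtain ⟨c, hc, hm⟩ := mm_of_rel D A B C hA hB hC hli η hη
    obtain ⟨K, hK, h⟩ := window (w := D + η) (c := c) (γ := γ) (by linarith) hc h1 h2
    exact ⟨K, hK, fun x y hxy => h x y (hm x y hxy)⟩
  · obtain ⟨η, hη, h1, h2⟩ := params hγ hγD
    obtain ⟨c, hc, hm⟩ := mm_of_rel D A B C hA hB hC hli η hη
    exact crit (w := D + η) (c := c) (γ := γ) (by linarith) hc h1 h2 (hm x y hxy)

lemma li_pair : LinearIndependent ℤ ![(X : ℤ[X]) ^ 2, -X, 1] := by
  rw [Fintype.linearIndependent_iff]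
  intro g hg
  rw [Fin.sum_univ_three] at hg
  have h : ∀ j : ℕ, g 0 * (if j = 2 then 1 else 0) + g 1 * (-(if 1 = j then 1 else 0)) +
      g 2 * (if j = 0 then 1 else 0) = 0 := by
    intro j
    have h1 := congrArg (fun P : ℤ[X] => P.coeff j) hg
    simp only [Matrix.cons_val_zero, Matrix.cons_val_one, Matrix.cons_val, coeff_add, coeff_smul,
      coeff_neg, coeff_X_pow, coeff_X, coeff_one, smul_eq_mul, coeff_zero] at h1
    exact h1
  intro i
  fin_cases i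
  · simpa using h 2
  · simpa using h 1
  · simpa using h 0

lemma onLine_pair (t : ℝ) : OnLine (X ^ 2) (-X) 1 (t + exp 1) (t * exp 1) := by
  unfold OnLine
  simp only [map_pow, aeval_X, map_neg, map_one]
  ring

lemma lt_of_sqrt {γ : ℝ} (h : 2 + √3 < γ) : 1 < γ ∧ (2 : ℕ) * γ < (γ - 1) ^ 2 := by
  have h3 : √3 ^ 2 = 3 := Real.sq_sqrt (by norm_num)
  have h0 : 0 ≤ √3 := Real.sqrt_nonneg 3
  refine ⟨by linarith, ?_⟩
  push_cast
  nlinarith

theorem result :
    -- the general statement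
    (∀ (D : ℕ) (A B C : ℤ[X]), A.natDegree ≤ D → B.natDegree ≤ D → C.natDegree ≤ D →
      LinearIndependent ℤ ![A, B, C] → Four D A B C) ∧
    -- it applies to all pairs `(t + e, t e)` with `D = 2`
    (Four 2 (X ^ 2) (-X) 1 ∧ ∀ t : ℝ, OnLine (X ^ 2) (-X) 1 (t + exp 1) (t * exp 1)) ∧
    -- `π + e` and `π e`: rational approximations
    (∀ η : ℝ, 0 < η → ∃ c : ℝ, 0 < c ∧ ∀ (p p' : ℤ) (q q' : ℕ), 0 < q → 0 < q' →
      c * (q * q' : ℝ) ^ (-(3 + η)) ≤ |π + exp 1 - p / q| + |π * exp 1 - p' / q'|) ∧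
    -- `π + e` and `π e`: the criterion
    (∀ γ : ℝ, 2 + √3 < γ →
      (LinearIndependent ℚ ![(1 : ℝ), π + exp 1, π * exp 1] ↔
        ∀ X0 : ℝ, ∃ X : ℝ, X0 ≤ X ∧ ∀ v : Fin 3 → ℤ, v ≠ 0 → (ht v : ℝ) ≤ X →
          X ^ (-γ) < |v 0 + v 1 * (π + exp 1) + v 2 * (π * exp 1)|)) := by
  have hfour : Four 2 (X ^ 2) (-X) 1 := four 2 _ _ _ (by simp) (by simp) (by simp) li_pair
  refine ⟨four, ⟨hfour, onLine_pair⟩, fun η hη => ?_, fun γ hγ => ?_⟩
  · obtain ⟨c, hc, hm⟩ := mm_of_rel 2 (X ^ 2) (-X) 1 (by simp) (by simp) (by simp) li_pair η hη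
    have hc1 : 0 < c * 10 ^ (-(2 + η)) := by positivity
    refine ⟨min 1 (c * 10 ^ (-(2 + η))), by positivity, fun p p' q q' hq hq' => ?_⟩
    have hq1 : (1 : ℝ) ≤ q := by exact_mod_cast hq
    have hq1' : (1 : ℝ) ≤ q' := by exact_mod_cast hq'
    have hQ : (1 : ℝ) ≤ q * q' := by nlinarith
    have hpow : (0 : ℝ) < (q * q' : ℝ) ^ (-(3 + η)) := rpow_pos_of_pos (by linarith) _
    have hpow1 : (q * q' : ℝ) ^ (-(3 + η)) ≤ 1 := rpow_le_one_of_one_le_of_nonpos hQ (by linarith)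
    have hpi : 0 < π := pi_pos
    have hpi4 : π < 3.15 := pi_lt_d2
    have he : exp 1 < 2.7182818286 := exp_one_lt_d9
    have he0 : 0 < exp 1 := exp_pos 1
    have hpe : π * exp 1 < 9 := by nlinarith
    have hpe0 : 0 < π * exp 1 := by positivity
    have triv : (1 : ℝ) < |π + exp 1 - p / q| + |π * exp 1 - p' / q'| →
        min 1 (c * 10 ^ (-(2 + η))) * (q * q' : ℝ) ^ (-(3 + η)) ≤
          |π + exp 1 - p / q| + |π * exp 1 - p' / q'| := by
      intro h
      have : min 1 (c * 10 ^ (-(2 + η))) * (q * q' : ℝ) ^ (-(3 + η)) ≤ 1 * 1 :=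
        mul_le_mul (min_le_left _ _) hpow1 hpow.le zero_le_one
      linarith
    by_cases h1 : (1 : ℝ) < |π + exp 1 - p / q| + |π * exp 1 - p' / q'|
    · exact triv h1
    have h1' : |π + exp 1 - p / q| + |π * exp 1 - p' / q'| ≤ 1 := not_lt.1 h1
    have h2 : |π + exp 1 - p / q| ≤ 1 := by linarith [abs_nonneg (π * exp 1 - p' / q')]
    have h3 : |π * exp 1 - p' / q'| ≤ 1 := by linarith [abs_nonneg (π + exp 1 - p / q)]
    rw [abs_le] at h2 h3
    have hp : |(p : ℝ)| ≤ 10 * q := by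
      have : (p : ℝ) = p / q * q := by field_simp
      rw [this, abs_mul, abs_of_nonneg (by linarith : (0 : ℝ) ≤ q)]
      refine mul_le_mul_of_nonneg_right ?_ (by linarith)
      rw [abs_le]
      constructor <;> linarith
    have hp' : |(p' : ℝ)| ≤ 10 * q' := by
      have : (p' : ℝ) = p' / q' * q' := by field_simp
      rw [this, abs_mul, abs_of_nonneg (by linarith : (0 : ℝ) ≤ q')]
      refine mul_le_mul_of_nonneg_right ?_ (by linarith)
      rw [abs_le]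
      constructor <;> linarith
    have h4 := hm (π + exp 1) (π * exp 1) (onLine_pair π) ![(q : ℤ) * q', p * q', p' * q]
      (by
        intro h
        have := congrFun h 0
        simp only [Matrix.cons_val_zero, Pi.zero_apply, mul_eq_zero] at this
        omega) (10 * (q * q')) (by linarith) (by
        intro j
        fin_cases j
        · simp only [Fin.zero_eta, Matrix.cons_val_zero]
          push_cast
          rw [abs_of_nonneg (by positivity)]
          linarith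
        · simp only [Fin.mk_one, Matrix.cons_val_one, Matrix.cons_val_zero]
          push_cast
          rw [abs_mul, abs_of_nonneg (by linarith : (0 : ℝ) ≤ q')]
          nlinarith
        · simp only [Fin.reduceFinMk, Matrix.cons_val]
          push_cast
          rw [abs_mul, abs_of_nonneg (by linarith : (0 : ℝ) ≤ q)]
          nlinarith)
    have e1 : SS (π + exp 1) (π * exp 1) ![(q : ℤ) * q', p * q', p' * q] =
        (q * q') * (|π + exp 1 - p / q| + |π * exp 1 - p' / q'|) := by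
      unfold SS
      simp only [Matrix.cons_val_zero, Matrix.cons_val_one, Matrix.cons_val]
      push_cast
      rw [show (q * q' : ℝ) * (π + exp 1) - p * q' = (q * q') * (π + exp 1 - p / q) by
        field_simp, show (p' * q : ℝ) - π * exp 1 * (q * q') =
          -((q * q') * (π * exp 1 - p' / q')) by field_simp; ring, abs_neg, abs_mul (q * q' : ℝ) _,
        abs_mul (q * q' : ℝ) _, abs_of_nonneg (by linarith : (0 : ℝ) ≤ q * q')]
      ring
    rw [e1, mul_rpow (by norm_num) (by linarith)] at h4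
    have e2 : (q * q' : ℝ) ^ (-(((2 : ℕ) : ℝ) + η)) =
        (q * q' : ℝ) * (q * q' : ℝ) ^ (-(3 + η)) := by
      rw [show (-(((2 : ℕ) : ℝ) + η)) = 1 + (-(3 + η)) by push_cast; ring,
        rpow_add (by linarith), rpow_one]
    rw [e2] at h4
    have h5 : (q * q' : ℝ) * (c * 10 ^ (-(2 + η)) * (q * q' : ℝ) ^ (-(3 + η))) ≤
        (q * q') * (|π + exp 1 - p / q| + |π * exp 1 - p' / q'|) := by
      refine le_trans (le_of_eq ?_) h4
      push_cast
      ring
    have h6 := le_of_mul_le_mul_left h5 (by linarith)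
    exact (mul_le_mul_of_nonneg_right (min_le_right _ _) hpow.le).trans h6
  · obtain ⟨h1, h2⟩ := lt_of_sqrt hγ
    exact hfour.2.2.2 γ h1 h2 _ _ (onLine_pair π)

end Pool.Agent.Results.MP_a49cf6_nt.NearRelationsOfPairs
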