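import Pool.Agent.Q258.TwoPar.A

/-!
# Two-parameter families through the five numbers

All the numbers `π + β e^α`, `π e^α`, `e^(β e^α)`, `π^(β e^α)`, `π^(β π^r)` with arbitrary algebraic
`α`, `β` and rational `r` (`α = β = r = 1` are the five numbers of the problem).

Tools: the theorems of Lindemann and Weierstrass, of Baker and of Roy (strong six exponentials), all
proved in the starting library.
-/

set_option autoImplicit false

namespace Pool.Agent.Results.MP_a49cf6_nt.TwoParameterFamilies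

open Pool.Agent.Q258.TwoPar Pool.Agent.H340R2 Pool.Agent.H301R2.SSE

/-- algebraic over the rational numbers -/
abbrev Alg (z : ℂ) : Prop := IsAlgebraic ℚ z

/-- `z = γ + β₁ l₁ + … + β_m l_m` with `γ`, the `β_i` and the exponentials of the `l_i` algebraic:
`z` is a linear form in `1` and logarithms of algebraic numbers, with algebraic coefficients -/
def LinForm (z : ℂ) : Prop := ∃ (m : ℕ) (γ : ℂ) (β l : Fin m → ℂ), Alg γ ∧ (∀ i, Alg (β i)) ∧
  (∀ i, Alg (Complex.exp (l i))) ∧ z = γ + ∑ i, β i * l i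

theorem LinForm.mem {z : ℂ} (h : LinForm z) : z ∈ Lt := by
  obtain ⟨m, γ, β, l, hγ, hβ, hl, rfl⟩ := h
  exact Lt.add_mem (Lt_alg hγ) (Submodule.sum_mem _ fun i _ => Lt_mul (hβ i) (Lt_log (hl i)))

theorem linForm_of_exp {β z : ℂ} (hβ : Alg β) (hβ0 : β ≠ 0) (h : Alg (Complex.exp (β * z))) :
    LinForm z := by
  refine ⟨1, 0, fun _ => β⁻¹, fun _ => β * z, isAlgebraic_zero, fun _ => hβ.inv, fun _ => h, ?_⟩
  rw [Fin.sum_univ_one]
  field_simp
  ring

theorem three_of_encard {X : Type} {S : Set X} (h : ¬ S.encard ≤ 2) :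
    ∃ f : Fin 3 → X, Function.Injective f ∧ ∀ j, f j ∈ S := by
  push Not at h
  have h3 : (3 : ℕ∞) ≤ S.encard := by
    have := Order.add_one_le_of_lt h
    norm_num at this
    exact this
  obtain ⟨t, ht, ht3⟩ := Set.exists_subset_encard_eq h3
  obtain ⟨x, y, z, hxy, hxz, hyz, rfl⟩ := Set.encard_eq_three.mp ht3
  refine ⟨![x, y, z], ?_, ?_⟩
  · intro i j hij
    fin_cases i <;> fin_cases j <;> first | rfl | (exfalso; simp at hij; tauto)
  · intro j
    fin_cases j
    · exact ht (show x ∈ ({x, y, z} : Set X) by simp)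
    · exact ht (show y ∈ ({x, y, z} : Set X) by simp)
    · exact ht (show z ∈ ({x, y, z} : Set X) by simp)

theorem no_three {s : ℂ} (hs : s ≠ 0) {d : ℂ} (hd : Alg d) (hd0 : d ≠ 0) :
    {α : ℂ | Alg α ∧ LinForm (s * Complex.exp α) ∧
      LinForm (s * Complex.exp (α + d))}.encard ≤ 2 := by
  by_contra hcon
  obtain ⟨f, hf, h⟩ := three_of_encard hcon
  exact three s hs d hd hd0 f (fun j => (h j).1) hf (fun j => (h j).2.1.mem)
    (fun j => (h j).2.2.mem)

theorem no_three_pow {t : ℝ} (ht : 0 < t) (htr : Transcendental ℚ t) {s : ℂ} (hs : s ≠ 0) {d : ℚ}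
    (hd0 : d ≠ 0) :
    {r : ℚ | LinForm (((t ^ ((r : ℚ) : ℝ) : ℝ) : ℂ) * s) ∧
      LinForm (((t ^ ((r + d : ℚ) : ℝ) : ℝ) : ℂ) * s)}.encard ≤ 2 := by
  by_contra hcon
  obtain ⟨f, hf, h⟩ := three_of_encard hcon
  exact three_pow t ht htr s hs d hd0 f hf (fun j => (h j).1.mem) (fun j => (h j).2.mem)

theorem card_two {X : Type} [DecidableEq X] {S : Set X} (h : S.encard ≤ 2) (B : Finset X)
    (hB : ∀ x ∈ B, x ∈ S) : B.card ≤ 2 := by
  have h1 : ((B : Set X)).encard ≤ 2 := (Set.encard_le_encard hB).trans h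
  rw [Set.encard_coe_eq_coe_finsetCard] at h1
  exact_mod_cast h1

theorem finset_bound {s : ℂ} (hs : s ≠ 0) (F B : Finset ℂ) (hBF : B ⊆ F) (hF : ∀ α ∈ F, Alg α)
    (hB : ∀ α ∈ B, LinForm (s * Complex.exp α)) :
    B.card * (B.card - 1) ≤ 2 * (((F ×ˢ F).image (fun p => p.2 - p.1)).erase 0).card := by
  classical
  refine near_sidon F B hBF ?_
  intro d hd0
  by_cases hd : Alg d
  · refine card_two (no_three hs hd hd0) _ ?_
    intro x hx
    rw [Finset.mem_filter] at hx
    exact ⟨hF x (hBF hx.1), hB x hx.1, hB _ hx.2⟩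
  · have : B.filter (fun a => a + d ∈ B) = ∅ := by
      rw [Finset.filter_eq_empty_iff]
      intro x hx hxd
      apply hd
      have := (hF _ (hBF hxd)).sub (hF _ (hBF hx))
      rwa [add_sub_cancel_left] at this
    rw [this]
    simp

theorem finset_bound_pow {t : ℝ} (ht : 0 < t) (htr : Transcendental ℚ t) {s : ℂ} (hs : s ≠ 0)
    (F B : Finset ℚ) (hBF : B ⊆ F) (hB : ∀ r ∈ B, LinForm (((t ^ ((r : ℚ) : ℝ) : ℝ) : ℂ) * s)) :
    B.card * (B.card - 1) ≤ 2 * (((F ×ˢ F).image (fun p => p.2 - p.1)).erase 0).card := by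
  classical
  refine near_sidon F B hBF ?_
  intro d hd0
  refine card_two (no_three_pow ht htr hs hd0) _ ?_
  intro x hx
  rw [Finset.mem_filter] at hx
  exact ⟨hB x hx.1, hB _ hx.2⟩

theorem count (P : ℤ → Prop) (h : ∀ d : ℤ, d ≠ 0 → ∀ r : Fin 3 → ℤ, Function.Injective r →
      (∀ j, P (r j)) → (∀ j, P (r j + d)) → False) (Q : ℤ → Prop) (hQ : ∀ k, Q k → P k)
    (a : ℤ) (N : ℕ) :
    ({k : ℤ | a < k ∧ k ≤ a + N ∧ Q k}.ncard : ℝ) ≤ 2 * Real.sqrt N + 1 := by
  classical
  have e : {k : ℤ | a < k ∧ k ≤ a + N ∧ Q k} =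
      (((Finset.Ioc a (a + N)).filter Q : Finset ℤ) : Set ℤ) := by
    ext k
    simp [and_assoc]
  rw [e, Set.ncard_coe_finset]
  refine near_sidon_int P a N _ (Finset.filter_subset _ _) ?_ h
  intro k hk
  exact hQ k (Finset.mem_filter.mp hk).2

/-- `π^w`, `w` complex -/
theorem pi_cpow (w : ℂ) : (Real.pi : ℂ) ^ w = Complex.exp (w * (Real.log Real.pi : ℝ)) := by
  rw [Complex.cpow_def_of_ne_zero (by exact_mod_cast Real.pi_ne_zero), mul_comm,
    Complex.ofReal_log Real.pi_pos.le]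

theorem log_pi_ne : ((Real.log Real.pi : ℝ) : ℂ) ≠ 0 := by
  have : 0 < Real.log Real.pi := Real.log_pos (by linarith [Real.pi_gt_three])
  exact_mod_cast this.ne'

/-- **Main result.** -/
theorem result :
    -- (1) `t + β e^α`, `t` real, for instance `t = π`: at most one pair, and it is real
    (∀ t : ℝ, ∀ α β α' β' : ℂ, Alg α → Alg β → Alg α' → Alg β' → α ≠ 0 → β ≠ 0 → α' ≠ 0 → β' ≠ 0 →
      Alg (t + β * Complex.exp α) → Alg (t + β' * Complex.exp α') →
      α = α' ∧ β = β' ∧ α.im = 0 ∧ β.im = 0) ∧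
    -- (2) `t e^α`, for instance `t = π`: at most one `α`, and it is real
    (∀ t : ℝ, t ≠ 0 → ∀ α α' : ℂ, Alg α → Alg α' → Alg (t * Complex.exp α) →
      Alg (t * Complex.exp α') → α = α' ∧ α.im = 0) ∧
    -- (3) `s e^α`, `α` algebraic
    (∀ s : ℂ, s ≠ 0 → ∀ d : ℂ, Alg d → d ≠ 0 →
      {α : ℂ | Alg α ∧ LinForm (s * Complex.exp α) ∧
        LinForm (s * Complex.exp (α + d))}.encard ≤ 2) ∧
    (∀ s : ℂ, s ≠ 0 → ∀ F B : Finset ℂ, B ⊆ F → (∀ α ∈ F, Alg α) →
      (∀ α ∈ B, LinForm (s * Complex.exp α)) →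
      B.card * (B.card - 1) ≤ 2 * (((F ×ˢ F).image (fun p => p.2 - p.1)).erase 0).card) ∧
    -- (4) `t^r s`, `r` rational, `t` a positive transcendental number, for instance `π`
    (∀ t : ℝ, 0 < t → Transcendental ℚ t → ∀ s : ℂ, s ≠ 0 →
      (∀ d : ℚ, d ≠ 0 → {r : ℚ | LinForm (((t ^ ((r : ℚ) : ℝ) : ℝ) : ℂ) * s) ∧
        LinForm (((t ^ ((r + d : ℚ) : ℝ) : ℝ) : ℂ) * s)}.encard ≤ 2) ∧
      (∀ F B : Finset ℚ, B ⊆ F → (∀ r ∈ B, LinForm (((t ^ ((r : ℚ) : ℝ) : ℝ) : ℂ) * s)) →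
        B.card * (B.card - 1) ≤ 2 * (((F ×ˢ F).image (fun p => p.2 - p.1)).erase 0).card)) ∧
    -- (5) the numbers `e^(β z)`, `β` algebraic
    (∀ z : ℂ, z ≠ 0 →
      (¬ LinForm z → ∀ β : ℂ, Alg β → β ≠ 0 → Transcendental ℚ (Complex.exp (β * z))) ∧
      ∃ β₀ : ℂ, ∀ β : ℂ, Alg β → Alg (Complex.exp (β * z)) → ∃ q : ℚ, β = q * β₀) ∧
    -- (6) integer exponents: `e^(β e^(kα))`, `π^(β e^(kα))`, `π^(β π^k)`
    (∀ (a : ℤ) (N : ℕ), (∀ α : ℂ, Alg α → α ≠ 0 →
        ({k : ℤ | a < k ∧ k ≤ a + N ∧ ∃ β : ℂ, Alg β ∧ β ≠ 0 ∧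
          Alg (Complex.exp (β * Complex.exp (k * α)))}.ncard : ℝ) ≤ 2 * Real.sqrt N + 1 ∧
        ({k : ℤ | a < k ∧ k ≤ a + N ∧ ∃ β : ℂ, Alg β ∧ β ≠ 0 ∧
          Alg ((Real.pi : ℂ) ^ (β * Complex.exp (k * α)))}.ncard : ℝ) ≤ 2 * Real.sqrt N + 1) ∧
      ({k : ℤ | a < k ∧ k ≤ a + N ∧ ∃ β : ℂ, Alg β ∧ β ≠ 0 ∧
          Alg ((Real.pi : ℂ) ^ (β * (Real.pi : ℂ) ^ k))}.ncard : ℝ) ≤ 2 * Real.sqrt N + 1) := by
  have hpi : Transcendental ℚ Real.pi := LW.transcendental_pi
  refine ⟨?_, ?_, ?_, ?_, ?_, ?_, ?_⟩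
  · intro t α β α' β' hα hβ hα' hβ' h0 hb h0' hb' h1 h2
    have h3 := unique_rep h1 h2 hα hα' hβ hβ' h0 h0' hb rfl rfl
    have h4 : Alg ((t : ℂ) + (starRingEnd ℂ) β * Complex.exp ((starRingEnd ℂ) α)) := by
      have := conj_alg h1
      rwa [map_add, map_mul, Complex.conj_ofReal, ← Complex.exp_conj] at this
    have h5 := unique_rep h1 h4 hα (conj_alg hα) hβ (conj_alg hβ) h0
      (by simpa using h0) hb rfl rfl
    refine ⟨h3.1, h3.2, ?_, ?_⟩
    · exact Complex.conj_eq_iff_im.mp h5.1.symm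
    · exact Complex.conj_eq_iff_im.mp h5.2.symm
  · intro t ht α α' hα hα' h1 h2
    have ht' : (t : ℂ) ≠ 0 := by exact_mod_cast ht
    have key : ∀ γ : ℂ, Alg γ → Alg (t * Complex.exp γ) → α = γ := by
      intro γ hγ h3
      have h4 : Complex.exp (α - γ) = (t * Complex.exp α) * (t * Complex.exp γ)⁻¹ := by
        rw [Complex.exp_sub]
        have := Complex.exp_ne_zero γ
        field_simp
      have h5 := exp_alg (hα.sub hγ) (by rw [h4]; exact h1.mul h3.inv)
      exact sub_eq_zero.mp h5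
    refine ⟨key α' hα' h2, ?_⟩
    apply Complex.conj_eq_iff_im.mp
    symm
    apply key _ (conj_alg hα)
    have := conj_alg h1
    rwa [map_mul, Complex.conj_ofReal, ← Complex.exp_conj] at this
  · intro s hs d hd hd0
    exact no_three hs hd hd0
  · intro s hs F B hBF hF hB
    exact finset_bound hs F B hBF hF hB
  · intro t ht htr s hs
    exact ⟨fun d hd => no_three_pow ht htr hs hd, fun F B hBF hB => finset_bound_pow ht htr hs F B
      hBF hB⟩
  · intro z hz
    constructor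
    · intro hlin β hβ hβ0 halg
      exact hlin (linForm_of_exp hβ hβ0 halg)
    · by_cases h : ∃ γ : ℂ, γ ≠ 0 ∧ Alg γ ∧ Alg (Complex.exp (γ * z))
      · obtain ⟨γ, hγ0, hγ, h1⟩ := h
        exact ⟨γ, fun β hβ h2 => line hz hβ hγ hγ0 h2 h1⟩
      · push Not at h
        refine ⟨0, fun β hβ h2 => ⟨0, ?_⟩⟩
        by_contra hne
        exact h β (by simpa using hne) hβ h2
  · intro a N
    refine ⟨fun α hα hα0 => ⟨?_, ?_⟩, ?_⟩
    · refine count (fun k => LinForm (1 * Complex.exp (k * α))) ?_ _ ?_ a N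
      · intro d hd r hr h1 h2
        refine three 1 one_ne_zero (d * α) ((isAlgebraic_intCast d).mul hα) ?_
          (fun j => (r j : ℂ) * α) (fun j => (isAlgebraic_intCast (r j)).mul hα) ?_
          (fun j => (h1 j).mem) ?_
        · exact mul_ne_zero (by exact_mod_cast hd) hα0
        · intro i j hij
          apply hr
          have := mul_right_cancel₀ hα0 hij
          exact_mod_cast this
        · intro j
          have := (h2 j).mem
          push_cast at this
          rwa [add_mul] at this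
      · rintro k ⟨β, hβ, hβ0, h⟩
        show LinForm _
        rw [one_mul]
        exact linForm_of_exp hβ hβ0 h
    · refine count (fun k => LinForm (((Real.log Real.pi : ℝ) : ℂ) * Complex.exp (k * α)))
        ?_ _ ?_ a N
      · intro d hd r hr h1 h2
        refine three _ log_pi_ne (d * α) ((isAlgebraic_intCast d).mul hα) ?_
          (fun j => (r j : ℂ) * α) (fun j => (isAlgebraic_intCast (r j)).mul hα) ?_
          (fun j => (h1 j).mem) ?_
        · exact mul_ne_zero (by exact_mod_cast hd) hα0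
        · intro i j hij
          apply hr
          have := mul_right_cancel₀ hα0 hij
          exact_mod_cast this
        · intro j
          have := (h2 j).mem
          push_cast at this
          rwa [add_mul] at this
      · rintro k ⟨β, hβ, hβ0, h⟩
        refine linForm_of_exp hβ hβ0 ?_
        rw [pi_cpow] at h
        convert h using 2
        ring
    · refine count (fun k => LinForm (((Real.pi ^ ((k : ℚ) : ℝ) : ℝ) : ℂ) *
        ((Real.log Real.pi : ℝ) : ℂ))) ?_ _ ?_ a N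
      · intro d hd r hr h1 h2
        refine three_pow Real.pi Real.pi_pos hpi _ log_pi_ne (d : ℚ) (by exact_mod_cast hd)
          (fun j => (r j : ℚ)) ?_ (fun j => (h1 j).mem) ?_
        · intro i j hij
          apply hr
          have hij' : (r i : ℚ) = (r j : ℚ) := hij
          exact_mod_cast hij'
        · intro j
          have := (h2 j).mem
          push_cast at this
          push_cast
          exact this
      · rintro k ⟨β, hβ, hβ0, h⟩
        refine linForm_of_exp hβ hβ0 ?_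
        rw [pi_cpow] at h
        convert h using 2
        rw [Rat.cast_intCast, Real.rpow_intCast, Complex.ofReal_zpow]
        ring

end Pool.Agent.Results.MP_a49cf6_nt.TwoParameterFamilies
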